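import Pool.Agent.Helper19.TGX.Goals

/-!
# Project TGX (MP_a41896_nt), packet PFW: the Wronskian is divisible by `M C`
-/

set_option autoImplicit false

open Polynomial

namespace Pool.Agent.Helper43.TGX.PFW

open WeierstrassCurve
open Pool.Agent.Helper19.TGX (hf wr)

/-- the resultant identities for two binary quadratic forms -/
theorem quad {R : Type} [CommRing R] (A B p0 p1 p2 q0 q1 q2 r : R)
    (hr : r = (p0 * q2 - p2 * q0) ^ 2 - (p0 * q1 - p1 * q0) * (p1 * q2 - p2 * q1)) :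
    (∃ L1 L2 : R, r * A ^ 3 = L1 * (p0 * A ^ 2 + p1 * A * B + p2 * B ^ 2) +
      L2 * (q0 * A ^ 2 + q1 * A * B + q2 * B ^ 2)) ∧
    ∃ L1 L2 : R, r * B ^ 3 = L1 * (p0 * A ^ 2 + p1 * A * B + p2 * B ^ 2) +
      L2 * (q0 * A ^ 2 + q1 * A * B + q2 * B ^ 2) := by
  subst hr
  refine ⟨⟨((p0 * q2 - p2 * q0) * q2 - (p1 * q2 - p2 * q1) * q1) * A -
      (p1 * q2 - p2 * q1) * q2 * B,
      -((p0 * q2 - p2 * q0) * p2 - (p1 * q2 - p2 * q1) * p1) * A +
      (p1 * q2 - p2 * q1) * p2 * B, by ring⟩,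
    ⟨(-(p0 * q2 - p2 * q0) * q0 + (p0 * q1 - p1 * q0) * q1) * B +
      (p0 * q1 - p1 * q0) * q0 * A,
      ((p0 * q2 - p2 * q0) * p0 - (p0 * q1 - p1 * q0) * p1) * B -
      (p0 * q1 - p1 * q0) * p0 * A, by ring⟩⟩

/-- two coprime binary forms -/
theorem quad_coprime {R : Type} [CommRing R] (A B p0 p1 p2 q0 q1 q2 r : R)
    (hr : r = (p0 * q2 - p2 * q0) ^ 2 - (p0 * q1 - p1 * q0) * (p1 * q2 - p2 * q1))
    (hu : IsUnit r) (hAB : IsCoprime A B) :
    IsCoprime (p0 * A ^ 2 + p1 * A * B + p2 * B ^ 2) (q0 * A ^ 2 + q1 * A * B + q2 * B ^ 2) := by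
  obtain ⟨⟨L1, L2, h1⟩, L3, L4, h2⟩ := quad A B p0 p1 p2 q0 q1 q2 r hr
  obtain ⟨a, b, hab⟩ := (hAB.pow (m := 3) (n := 3))
  obtain ⟨u, hu⟩ := hu
  have hu' : ((u⁻¹ : Rˣ) : R) * r = 1 := by rw [← hu, Units.inv_mul]
  refine ⟨((u⁻¹ : Rˣ) : R) * (a * L1 + b * L3), ((u⁻¹ : Rˣ) : R) * (a * L2 + b * L4), ?_⟩
  linear_combination (((u⁻¹ : Rˣ) : R) * r) * hab + hu' - ((u⁻¹ : Rˣ) : R) * a * h1 -
    ((u⁻¹ : Rˣ) : R) * b * h2

variable {k : Type} [Field k]

/-- the partial derivatives -/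
noncomputable def HA (W : Affine k) (A B : k[X]) : k[X] :=
  C 12 * A ^ 2 + C (2 * W.b₂) * A * B + C (2 * W.b₄) * B ^ 2

noncomputable def HB (W : Affine k) (A B : k[X]) : k[X] :=
  C W.b₂ * A ^ 2 + C (4 * W.b₄) * A * B + C (3 * W.b₆) * B ^ 2

theorem cop_H [CharZero k] (W : Affine k) (hW : W.IsElliptic) (A B : k[X])
    (hAB : IsCoprime A B) : IsCoprime (HA W A B) (HB W A B) := by
  have hΔ : W.Δ ≠ 0 := hW.isUnit.ne_zero
  have e : (12 * (3 * W.b₆) - (2 * W.b₄) * W.b₂) ^ 2 -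
      (12 * (4 * W.b₄) - (2 * W.b₂) * W.b₂) * ((2 * W.b₂) * (3 * W.b₆) - (2 * W.b₄) * (4 * W.b₄)) =
      -48 * W.Δ := by
    have h := W.b_relation
    unfold WeierstrassCurve.Δ
    linear_combination (-12 * W.b₂ ^ 2) * h
  have hne : (-48 * W.Δ) ≠ 0 := mul_ne_zero (by norm_num) hΔ
  unfold HA HB
  refine quad_coprime A B _ _ _ _ _ _ (C (-48 * W.Δ)) ?_ (isUnit_C.2 (isUnit_iff_ne_zero.2 hne))
    hAB
  rw [← e]
  simp only [map_sub, map_mul, map_pow]

theorem three_hf (W : Affine k) (A B : k[X]) :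
    3 * hf W A B = HA W A B * A + HB W A B * B := by
  have h12 : (C 12 : k[X]) = 12 := map_ofNat C 12
  have h2 : (C 2 : k[X]) = 2 := map_ofNat C 2
  have h3 : (C 3 : k[X]) = 3 := map_ofNat C 3
  have h4 : (C 4 : k[X]) = 4 := map_ofNat C 4
  unfold hf HA HB
  simp only [map_mul, h12, h2, h3, h4]
  ring

theorem der_hf (W : Affine k) (A B : k[X]) :
    derivative (hf W A B) = HA W A B * derivative A + HB W A B * derivative B := by
  have h12 : (C 12 : k[X]) = 12 := map_ofNat C 12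
  have h2 : (C 2 : k[X]) = 2 := map_ofNat C 2
  have h3 : (C 3 : k[X]) = 3 := map_ofNat C 3
  have h4 : (C 4 : k[X]) = 4 := map_ofNat C 4
  unfold hf HA HB
  simp only [map_mul, h12, h2, h3, h4, derivative_add, derivative_mul, derivative_pow,
    derivative_C, derivative_ofNat]
  simp only [map_natCast]
  push_cast
  ring

/-- the case of coprime `C`, `E` -/
theorem cop_case [CharZero k] (W : Affine k) (hW : W.IsElliptic) (A B Cc E β : k[X])
    (hAB : IsCoprime A B) (hB : B ≠ 0) (hE : E ≠ 0) (hβ : Squarefree β)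
    (h : E ^ 2 * hf W A B = Cc ^ 2 * β * B ^ 3) (hc : IsCoprime Cc E) :
    ∃ N : k[X], wr A B * E = N * (B ^ 2 * Cc) := by
  -- `h` and `B` are coprime
  have hhB : IsCoprime (hf W A B) B := by
    have e : hf W A B = 4 * A ^ 3 + B * (C W.b₂ * A ^ 2 + 2 * C W.b₄ * A * B +
        C W.b₆ * B ^ 2) := by
      unfold hf
      ring
    rw [e]
    refine IsCoprime.add_mul_left_left ?_ _
    have h4 : IsUnit (4 : k[X]) := by
      have : (4 : k[X]) = C 4 := (map_ofNat C 4).symm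
      rw [this]
      exact isUnit_C.2 (isUnit_iff_ne_zero.2 (by norm_num))
    exact (isCoprime_mul_unit_left_left h4 _ _).2 (hAB.pow_left)
  -- `B ^ 3` divides `E ^ 2`
  have hd : B ^ 3 ∣ E ^ 2 := by
    have h1 : B ^ 3 ∣ E ^ 2 * hf W A B := ⟨Cc ^ 2 * β, by rw [h]; ring⟩
    exact (hhB.pow_right.symm : IsCoprime (B ^ 3) (hf W A B)).dvd_of_dvd_mul_right h1
  obtain ⟨e, he⟩ := hd
  have he0 : e ≠ 0 := by
    rintro rfl
    rw [mul_zero] at he
    exact pow_ne_zero 2 hE he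
  have hB3 : B ^ 3 ≠ 0 := pow_ne_zero 3 hB
  have heh : e * hf W A B = Cc ^ 2 * β := by
    apply mul_left_cancel₀ hB3
    linear_combination h - hf W A B * he
  have hec : IsCoprime e (Cc ^ 2) := by
    have h1 : IsCoprime (E ^ 2) (Cc ^ 2) := hc.symm.pow
    rw [he] at h1
    exact h1.of_mul_left_right
  have heβ : e ∣ β := hec.dvd_of_dvd_mul_left ⟨hf W A B, heh.symm⟩
  obtain ⟨g, hg⟩ := heβ
  have hhg : hf W A B = Cc ^ 2 * g := by
    apply mul_left_cancel₀ he0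
    rw [heh, hg]
    ring
  have hesq : Squarefree e := hβ.squarefree_of_dvd ⟨g, hg⟩
  have hBE : B ∣ E := by
    have h1 : B ^ 2 ∣ E ^ 2 := ⟨B * e, by rw [he]; ring⟩
    exact (IsIntegrallyClosed.pow_dvd_pow_iff two_ne_zero).1 h1
  obtain ⟨H, hH⟩ := hBE
  have hH2 : H ^ 2 = B * e := by
    have hB2 : B ^ 2 ≠ 0 := pow_ne_zero 2 hB
    apply mul_left_cancel₀ hB2
    have h1 : (B * H) ^ 2 = B ^ 3 * e := by rw [← hH, he]
    linear_combination h1
  have heH : e ∣ H := (hesq.dvd_pow_iff_dvd two_ne_zero).1 ⟨B, by rw [hH2]; ring⟩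
  obtain ⟨M, hM⟩ := heH
  have hBM : B = e * M ^ 2 := by
    apply mul_left_cancel₀ he0
    have h1 : (e * M) ^ 2 = B * e := by rw [← hM, hH2]
    linear_combination -h1
  -- the divisibilities
  have hMw : M ∣ wr A B := by
    have h1 : M ∣ B := ⟨e * M, by rw [hBM]; ring⟩
    have h2 : M ∣ derivative B := by
      rw [hBM, derivative_mul, derivative_pow]
      refine ⟨derivative e * M + e * (C ((2 : ℕ) : k) * derivative M), ?_⟩
      simp only [Nat.add_one_sub_one, pow_one]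
      ring
    unfold wr
    exact dvd_sub (h1.mul_left _) (h2.mul_left _)
  have hCh : Cc ∣ hf W A B := ⟨Cc * g, by rw [hhg]; ring⟩
  have hCh' : Cc ∣ derivative (hf W A B) := by
    rw [hhg, derivative_mul, derivative_pow]
    refine ⟨C ((2 : ℕ) : k) * derivative Cc * g + Cc * derivative g, ?_⟩
    simp only [Nat.add_one_sub_one, pow_one]
    ring
  have hCw : Cc ∣ wr A B := by
    obtain ⟨a, b, hab⟩ := cop_H W hW A B hAB
    have e3 := three_hf W A B
    have e4 := der_hf W A B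
    have e1 : HA W A B * wr A B = derivative (hf W A B) * B - 3 * hf W A B * derivative B := by
      unfold wr
      linear_combination derivative B * e3 - B * e4
    have e2 : HB W A B * wr A B = 3 * hf W A B * derivative A - A * derivative (hf W A B) := by
      unfold wr
      linear_combination -derivative A * e3 + A * e4
    have e5 : wr A B = a * (HA W A B * wr A B) + b * (HB W A B * wr A B) := by
      linear_combination -(wr A B) * hab
    rw [e5, e1, e2]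
    refine dvd_add (Dvd.dvd.mul_left ?_ a) (Dvd.dvd.mul_left ?_ b)
    · exact dvd_sub (hCh'.mul_right _) ((hCh.mul_left _).mul_right _)
    · exact dvd_sub ((hCh.mul_left _).mul_right _) (hCh'.mul_left _)
  have hMC : IsCoprime M Cc := by
    refine hc.symm.of_isCoprime_of_dvd_left ?_
    exact ⟨B * e, by rw [hH, hM]; ring⟩
  obtain ⟨N, hN⟩ := hMC.mul_dvd hMw hCw
  refine ⟨N, ?_⟩
  rw [hN, hH, hM]
  linear_combination (-(N * Cc * B)) * hBM

theorem exists_gcd (Cc E : k[X]) (hE : E ≠ 0) :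
    ∃ d C1 E1 : k[X], d ≠ 0 ∧ Cc = d * C1 ∧ E = d * E1 ∧ IsCoprime C1 E1 := by
  classical
  have hd0 : EuclideanDomain.gcd Cc E ≠ 0 := fun h0 =>
    hE (EuclideanDomain.gcd_eq_zero_iff.1 h0).2
  obtain ⟨C1, hC1⟩ := EuclideanDomain.gcd_dvd_left Cc E
  obtain ⟨E1, hE1⟩ := EuclideanDomain.gcd_dvd_right Cc E
  refine ⟨EuclideanDomain.gcd Cc E, C1, E1, hd0, hC1, hE1,
    EuclideanDomain.gcdA Cc E, EuclideanDomain.gcdB Cc E, ?_⟩
  apply mul_left_cancel₀ hd0
  have h1 := EuclideanDomain.gcd_eq_gcd_ab Cc E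
  linear_combination -h1 - EuclideanDomain.gcdA Cc E * hC1 - EuclideanDomain.gcdB Cc E * hE1

theorem t : Pool.Agent.Helper19.TGX.PFW := by
  intro k _ _ W hW A B Cc E β hAB hB hE hβ h
  obtain ⟨d, C1, E1, hd0, hC1, hE1, hc⟩ := exists_gcd Cc E hE
  have hE1' : E1 ≠ 0 := by
    rintro rfl
    exact hE (by rw [hE1, mul_zero])
  have h1 : E1 ^ 2 * hf W A B = C1 ^ 2 * β * B ^ 3 := by
    apply mul_left_cancel₀ (pow_ne_zero 2 hd0)
    rw [hE1, hC1] at h
    linear_combination h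
  obtain ⟨N, hN⟩ := cop_case W hW A B C1 E1 β hAB hB hE1' hβ h1 hc
  refine ⟨N, ?_⟩
  rw [hE1, hC1]
  linear_combination d * hN

end Pool.Agent.Helper43.TGX.PFW
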